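import Pool.Agent.X170.Spec.Main

/-!
MP_e27144_an: every probability measure invariant under `×p` and `×q`, other than Lebesgue measure,
has more large Fourier coefficients than any power of `log N`.
-/

set_option autoImplicit false

open MeasureTheory Filter Topology

namespace Pool.Agent.Results.MP_e27144_an.LargeSpectrum

/-- The set of the integers `n`, `|n| ≤ N`, for which the Fourier coefficient `∫ e (n x) dμ` has
modulus at least `δ`. -/
def largeSpectrum (μ : Measure UnitAddCircle) (N : ℕ) (δ : ℝ) : Set ℤ :=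
  {n : ℤ | |n| ≤ (N : ℤ) ∧ δ ≤ ‖∫ x, (fourier n x : ℂ) ∂μ‖}

/-- **The large spectrum grows faster than any power of the logarithm.**
Let `p, q ≥ 2` with `log p / log q` irrational and let `μ` be a probability measure on the circle
which is invariant under `x ↦ p x` and `x ↦ q x` (atoms are allowed, no ergodicity).
(1) If `c = ∫ e (m x) dμ ≠ 0` for some `m ≠ 0`, then for each `l` there is `κ > 0` such that for all
large `N` at least `κ (log N) ^ (4 l)` integers `n`, `|n| ≤ N`, have a Fourier coefficient of modulus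
at least `|c| ^ (2 l) / 3`.
(2) If there is `K` such that for each `δ > 0` there is `C` such that for infinitely many `N` at most
`C (log N) ^ K` integers `n`, `|n| ≤ N`, have a Fourier coefficient of modulus at least `δ`, then `μ`
is Lebesgue measure. -/
theorem result (p q : ℕ) (hp : 2 ≤ p) (hq : 2 ≤ q)
    (hpq : Irrational (Real.log p / Real.log q)) (μ : Measure UnitAddCircle)
    (hμ : IsProbabilityMeasure μ)
    (hμp : MeasurePreserving (fun x : UnitAddCircle => p • x) μ μ)
    (hμq : MeasurePreserving (fun x : UnitAddCircle => q • x) μ μ) :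
    (∀ m : ℤ, m ≠ 0 → ∫ x, (fourier m x : ℂ) ∂μ ≠ 0 → ∀ l : ℕ, ∃ κ : ℝ, 0 < κ ∧
      ∀ᶠ N : ℕ in atTop, κ * (Real.log N) ^ (4 * l) ≤
        ((largeSpectrum μ N (‖∫ x, (fourier m x : ℂ) ∂μ‖ ^ (2 * l) / 3)).ncard : ℝ)) ∧
    (∀ K : ℕ, (∀ δ : ℝ, 0 < δ → ∃ C : ℝ, ∃ᶠ N : ℕ in atTop,
      ((largeSpectrum μ N δ).ncard : ℝ) ≤ C * (Real.log N) ^ K) → μ = volume) :=
  ⟨fun _ hm hc l => Pool.Agent.X170.Spec.growth hp hq hpq ⟨hμp, hμq⟩ hm l hc,
    fun K h => Pool.Agent.X170.Spec.sparse hp hq hpq ⟨hμp, hμq⟩ K h⟩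

end Pool.Agent.Results.MP_e27144_an.LargeSpectrum
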