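import Mathlib
import Pool.Agent.X170.Img.Loc

set_option autoImplicit false

open MeasureTheory Filter Topology Set

namespace Pool.Agent.Results.MP_e27144_an.LocalForm

/-- Atomless Borel probability measures on `R/Z`, invariant under `x ↦ p x` and `x ↦ q x` and
ergodic for the joint action. -/
def Admissible (p q : ℕ) (μ : Measure UnitAddCircle) : Prop :=
  IsProbabilityMeasure μ ∧ (∀ x, μ {x} = 0) ∧
    (MeasurePreserving (fun x : UnitAddCircle => p • x) μ μ ∧
      MeasurePreserving (fun x : UnitAddCircle => q • x) μ μ) ∧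
    ∀ E : Set UnitAddCircle, MeasurableSet E → (fun x : UnitAddCircle => p • x) ⁻¹' E = E →
      (fun x : UnitAddCircle => q • x) ⁻¹' E = E → μ E = 0 ∨ μ E = 1

/-- **The conjecture is equivalent to its local form, and to a finiteness statement.**
Let `p, q ≥ 2`.
(1) The following are equivalent: (a) Lebesgue measure is the only admissible measure; (b) there
are only finitely many admissible measures; (c) there are `N` and `ε > 0` such that Lebesgue
measure is the only admissible measure `μ` with `|μ^(m)| ≤ ε` for `0 < |m| ≤ N` (that is, Lebesgue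
measure is weak-* isolated among the admissible measures).
(2) Let `μ ≠ Lebesgue` be admissible, and let `n_* μ` be its image under `x ↦ n x`, `n ≥ 1`. Then
all the `n_* μ` are admissible and different from Lebesgue measure; two of them are equal or
mutually singular; for each `n` the set of the `m` with `m_* μ = n_* μ` has density zero; and there
is a sequence `c_k → ∞` for which the `(c_k)_* μ` are pairwise mutually singular and converge
weakly to Lebesgue measure. -/
theorem result : ∀ p q : ℕ, 2 ≤ p → 2 ≤ q →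
    List.TFAE [
      ∀ μ : Measure UnitAddCircle, Admissible p q μ → μ = volume,
      {μ : Measure UnitAddCircle | Admissible p q μ}.Finite,
      ∃ (N : ℕ) (ε : ℝ), 0 < ε ∧ ∀ μ : Measure UnitAddCircle, Admissible p q μ →
        (∀ m : ℤ, m ≠ 0 → |m| ≤ N → ‖∫ x, (fourier m x : ℂ) ∂μ‖ ≤ ε) → μ = volume] ∧
    ∀ μ : Measure UnitAddCircle, Admissible p q μ → μ ≠ volume →
      (∀ n : ℕ, 1 ≤ n → Admissible p q (μ.map fun x => n • x) ∧
        μ.map (fun x => n • x) ≠ volume) ∧
      (∀ m n : ℕ, 1 ≤ m → 1 ≤ n → μ.map (fun x => m • x) = μ.map (fun x => n • x) ∨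
        μ.map (fun x => m • x) ⟂ₘ μ.map (fun x => n • x)) ∧
      (∀ n : ℕ, 1 ≤ n → Tendsto (fun N : ℕ =>
        (Nat.card {m : ℕ | m < N ∧ μ.map (fun x => m • x) = μ.map (fun x => n • x)} : ℝ) / N)
        atTop (𝓝 0)) ∧
      ∃ c : ℕ → ℕ, Tendsto c atTop atTop ∧ (∀ k, 1 ≤ c k) ∧
        Pairwise (fun i j => μ.map (fun x => c i • x) ⟂ₘ μ.map (fun x => c j • x)) ∧
        ∀ f : C(UnitAddCircle, ℝ),
          Tendsto (fun k : ℕ => ∫ x, f x ∂(μ.map fun x => c k • x)) atTop (𝓝 (∫ x, f x)) := by
  intro p q hp hq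
  refine ⟨Pool.Agent.X170.Img.tfae hp hq, fun μ hμ hne => ?_⟩
  have hcx : Pool.Agent.X170.Img.Cx p q μ := Pool.Agent.X170.Img.Adm.cx hμ hne
  refine ⟨fun n hn => ⟨(hcx.map hp hq hn).adm, (hcx.map hp hq hn).2.2.2.2⟩, fun m n hm hn => ?_,
    fun n hn => ?_, Pool.Agent.X170.Img.sequence hp hq hcx⟩
  · have h1 := hcx.map hp hq hm
    have h2 := hcx.map hp hq hn
    have h3 := h1.1
    have h4 := h2.1
    exact Pool.Agent.X170.Img.eq_or_sing h1.2.2.1 h2.2.2.1 h1.2.2.2.1 h2.2.2.2.1
  · have h2 := hcx.map hp hq hn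
    have h4 := h2.1
    exact Pool.Agent.X170.Img.density hp hq hcx h2.2.2.2.2

end Pool.Agent.Results.MP_e27144_an.LocalForm
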