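import Mathlib
import Pool.Agent.X170.FC.Main

set_option autoImplicit false

open MeasureTheory

/-- **The point mass at `0` is the unique maximising measure for 154 of the 180 degrees with
`cos θ > 0`.** No entropy, no ergodicity, atoms are allowed. Let `c = ∫ e(x) dμ(x)` for a
probability measure `μ` on the circle which is invariant under `x ↦ 2 x` and `x ↦ 3 x`.
(1) `13 |Im c| ≤ 3 (1 - Re c)`, with equality only for `μ = δ_0`;
(2) for every phase `θ` with `|sin θ| ≤ (13/3) cos θ` (that is `|θ| ≤ arctan (13/3) = 77.005°`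
modulo `360°`) the greatest value of `∫ cos (2 π x - θ) dμ(x)` over all these `μ` is `cos θ`,
and `δ_0` is the only measure which attains it. -/
theorem Pool.Agent.Results.MP_e27144_an.PointMassVertex.result :
    (∀ μ : Measure UnitAddCircle, IsProbabilityMeasure μ →
      MeasurePreserving (fun x : UnitAddCircle => 2 • x) μ μ →
      MeasurePreserving (fun x : UnitAddCircle => 3 • x) μ μ →
        13 * |(∫ x, (fourier 1 x : ℂ) ∂μ).im| ≤ 3 * (1 - (∫ x, (fourier 1 x : ℂ) ∂μ).re) ∧
        (13 * |(∫ x, (fourier 1 x : ℂ) ∂μ).im| = 3 * (1 - (∫ x, (fourier 1 x : ℂ) ∂μ).re) →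
          μ = Measure.dirac 0)) ∧
    (∀ θ : ℝ, |Real.sin θ| ≤ 13 / 3 * Real.cos θ →
      IsGreatest {v : ℝ | ∃ μ : Measure UnitAddCircle, IsProbabilityMeasure μ ∧
        MeasurePreserving (fun x : UnitAddCircle => 2 • x) μ μ ∧
        MeasurePreserving (fun x : UnitAddCircle => 3 • x) μ μ ∧
        v = ∫ x, ((fourier 1 x : ℂ) * Complex.exp (-θ * Complex.I)).re ∂μ} (Real.cos θ) ∧
      ∀ μ : Measure UnitAddCircle, IsProbabilityMeasure μ →
        MeasurePreserving (fun x : UnitAddCircle => 2 • x) μ μ →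
        MeasurePreserving (fun x : UnitAddCircle => 3 • x) μ μ →
        ∫ x, ((fourier 1 x : ℂ) * Complex.exp (-θ * Complex.I)).re ∂μ = Real.cos θ →
        μ = Measure.dirac 0) :=
  ⟨fun μ _ h2 h3 => ⟨(Pool.Agent.X170.FC.im_abs h2 h3).1,
    fun h => Pool.Agent.X170.FC.dirac_of ((Pool.Agent.X170.FC.im_abs h2 h3).2 h)⟩,
    fun θ hθ => Pool.Agent.X170.FC.main θ hθ⟩
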