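import Pool.Agent.X170.Log2.Erg

/-!
MP_e27144_an: uniform upper bounds, of the order `|log r| ^ (-2)`, for the mass which invariant
probability measures of `×p` and `×q` give to balls about irrational points.
-/

set_option autoImplicit false

open MeasureTheory Metric

namespace Pool.Agent.Results.MP_e27144_an.UniformLogSquare

/-- The probability measure `μ` on the circle is invariant under `x ↦ p x` and `x ↦ q x`. -/
def Invariant (p q : ℕ) (μ : Measure UnitAddCircle) : Prop :=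
  IsProbabilityMeasure μ ∧ MeasurePreserving (fun x : UnitAddCircle => p • x) μ μ ∧
    MeasurePreserving (fun x : UnitAddCircle => q • x) μ μ

/-- `p, q ≥ 2` and `log p / log q` is irrational. -/
def Independent (p q : ℕ) : Prop :=
  2 ≤ p ∧ 2 ≤ q ∧ Irrational (Real.log p / Real.log q)

/-- `‖d x‖ ≥ c d ^ (-τ)` for all `d ≥ 1`; here `‖d x‖` is the distance of `d x` to `0` in the
circle. -/
def Diophantine (c τ : ℝ) (x : UnitAddCircle) : Prop :=
  ∀ d : ℕ, 1 ≤ d → c * (d : ℝ) ^ (-τ) ≤ ‖d • x‖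

/-- `E` has coverings by balls of arbitrarily small radii `r n` with arbitrarily small
`∑ |log (r n)| ^ (-2)`. -/
def LogSquareNull (E : Set UnitAddCircle) : Prop :=
  ∀ ε : ℝ, 0 < ε → ∃ (y : ℕ → UnitAddCircle) (r : ℕ → ℝ), (∀ n, 0 < r n ∧ r n < ε) ∧
    E ⊆ ⋃ n, ball (y n) (r n) ∧ Summable (fun n => 1 / (Real.log (r n)) ^ 2) ∧
    ∑' n, 1 / (Real.log (r n)) ^ 2 ≤ ε

/-- **Uniform `|log r| ^ (-2)` bounds at irrational points.**
(1) Every irrational `x` has arbitrarily small radii `r`, depending on `x` only, such that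
`μ (B(x, r)) ≤ 8 log p log q / (log (1 / (4 r))) ^ 2` for all multiplicatively independent `p, q`
and all probability measures `μ` invariant under `×p` and `×q` (with or without atoms).
(2) If `‖d x‖ ≥ c d ^ (-τ)` for all `d ≥ 1` then
`μ (B(x, r)) ≤ 2 (τ + 1) ^ 2 log p log q / (log (c / (2 r))) ^ 2` for all these `μ` and ALL
`0 < r < c / 2`.
(3) A set of points with a common `c > 0` and `τ` as in (2), with coverings by balls with small
`∑ |log r| ^ (-2)`, is a null set for all these `μ`.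
(4) If `μ` is moreover ergodic for the joint action then either almost every point is rational or
a Liouville number, or `μ (B(x, r)) ≤ K / (log r) ^ 2` for almost every `x` and all `r < r₀(x)`. -/
theorem result :
    (∀ x : ℝ, Irrational x → ∀ r₀ : ℝ, 0 < r₀ → ∃ r : ℝ, 0 < r ∧ r < r₀ ∧ r < 1 / 4 ∧
      ∀ p q : ℕ, Independent p q → ∀ μ : Measure UnitAddCircle, Invariant p q μ →
        μ.real (ball (x : UnitAddCircle) r) ≤
          8 * Real.log p * Real.log q / (Real.log (1 / (4 * r))) ^ 2) ∧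
    (∀ (x : UnitAddCircle) (c τ : ℝ), 0 ≤ τ → Diophantine c τ x →
      ∀ p q : ℕ, Independent p q → ∀ μ : Measure UnitAddCircle, Invariant p q μ →
        ∀ r : ℝ, 0 < r → 2 * r < c → μ.real (ball x r) ≤
          2 * (τ + 1) ^ 2 * Real.log p * Real.log q / (Real.log (c / (2 * r))) ^ 2) ∧
    (∀ (c τ : ℝ), 0 < c → 0 ≤ τ → ∀ E : Set UnitAddCircle, (∀ x ∈ E, Diophantine c τ x) →
      LogSquareNull E → ∀ p q : ℕ, Independent p q → ∀ μ : Measure UnitAddCircle,
        Invariant p q μ → μ E = 0) ∧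
    (∀ p q : ℕ, Independent p q → ∀ μ : Measure UnitAddCircle, Invariant p q μ →
      (∀ E : Set UnitAddCircle, MeasurableSet E → (fun x : UnitAddCircle => p • x) ⁻¹' E = E →
        (fun x : UnitAddCircle => q • x) ⁻¹' E = E → μ E = 0 ∨ μ E = 1) →
      (∀ᵐ x ∂μ, ∀ (k : ℕ) (c : ℝ), 0 < c → ∃ d : ℕ, 1 ≤ d ∧ ‖d • x‖ < c / (d : ℝ) ^ k) ∨
        ∃ K : ℝ, ∀ᵐ x ∂μ, ∃ r₀ : ℝ, 0 < r₀ ∧ ∀ r : ℝ, 0 < r → r < r₀ →
          μ.real (ball x r) ≤ K / (Real.log r) ^ 2) := by
  refine ⟨fun x hx r₀ hr₀ => ?_, fun x c τ hτ hx p q hpq μ hμ r hr hrc => ?_,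
    fun c τ hc hτ E hE hN p q hpq μ hμ => ?_, fun p q hpq μ hμ herg => ?_⟩
  · obtain ⟨r, h1, h2, h3, h4⟩ := Pool.Agent.X170.Log2.ball_irr hx hr₀
    exact ⟨r, h1, h2, h3, fun p q hpq μ hμ => h4 p q hpq.1 hpq.2.1 hpq.2.2 μ hμ.1 hμ.2⟩
  · have := hμ.1
    exact Pool.Agent.X170.Log2.ball_dio hpq.1 hpq.2.1 hpq.2.2 hμ.2 hτ hx hr hrc
  · have := hμ.1
    exact Pool.Agent.X170.Log2.null hpq.1 hpq.2.1 hpq.2.2 hμ.2 hτ hc hE hN
  · have := hμ.1
    exact Pool.Agent.X170.Log2.dichotomy hpq.1 hpq.2.1 hpq.2.2 hμ.2 herg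

end Pool.Agent.Results.MP_e27144_an.UniformLogSquare
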